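import Pool.Agent.Lib_MP_f96441_ins.Core

/-!
Inscribed parallelotopes (MP_f96441_co): for all `d ≥ 5` most convex bodies of `ℝ^d` have no
inscribed `d`-dimensional parallelotope; more generally most bodies have no inscribed injective
affine image of any given finite subset of `ℝ^k` with more than `d (k + 1)` points.
-/

set_option autoImplicit false

namespace Pool.Agent.Results.MP_f96441_co.FiniteConfigurations

open Pool.Agent.Lib_MP_f96441_ins

/-- (1) `S ⊂ ℝ^k` finite with more than `d (k + 1)` points: the bodies `K` in `𝒦^d` such that some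
affine map `f : ℝ^k → ℝ^d`, injective on `S`, maps `S` into the boundary of `K` form a meagre set.
(2) For `d ≥ 5` the bodies `K` in `𝒦^d` such that some invertible affine map maps the `2^d`
vertices of the cube `[0,1]^d` into the boundary of `K` form a meagre set. -/
theorem result :
    (∀ (d k : ℕ) (S : Finset (Fin k → ℝ)), d * (k + 1) < S.card →
      IsMeagre {K : Bodies d | ∃ f : (Fin k → ℝ) →ᵃ[ℝ] EuclideanSpace ℝ (Fin d),
        Set.InjOn f S ∧ ∀ w ∈ S, f w ∈ frontier (K.1 : Set (EuclideanSpace ℝ (Fin d)))}) ∧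
    ∀ d : ℕ, 5 ≤ d →
      IsMeagre {K : Bodies d | ∃ f : (Fin d → ℝ) ≃ᵃ[ℝ] EuclideanSpace ℝ (Fin d),
        ∀ w : Fin d → ℝ, (∀ i, w i = 0 ∨ w i = 1) →
          f w ∈ frontier (K.1 : Set (EuclideanSpace ℝ (Fin d)))} := by
  refine ⟨meagre_affine, fun d hd => ?_⟩
  classical
  have hinj : Function.Injective (fun (s : Finset (Fin d)) (i : Fin d) =>
      if i ∈ s then (1 : ℝ) else 0) := by
    intro s t h
    ext i
    have := congrFun h i
    by_cases h1 : i ∈ s <;> by_cases h2 : i ∈ t <;> simp_all
  set S : Finset (Fin d → ℝ) := Finset.univ.image (fun (s : Finset (Fin d)) (i : Fin d) =>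
      if i ∈ s then (1 : ℝ) else 0) with hS
  have hcard : S.card = 2 ^ d := by
    rw [hS, Finset.card_image_of_injective _ hinj, Finset.card_univ, Fintype.card_finset,
      Fintype.card_fin]
  have hlt : d * (d + 1) < S.card := by
    rw [hcard]
    have := Pool.Agent.Lib_MP_f96441_co.dim_lt hd
    linarith [mul_add d d 1]
  refine (meagre_affine d d S hlt).mono ?_
  rintro K ⟨f, hf⟩
  refine ⟨f, f.injective.injOn, ?_⟩
  intro w hw
  rw [hS, Finset.mem_image] at hw
  obtain ⟨s, -, rfl⟩ := hw
  apply hf
  intro i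
  by_cases h : i ∈ s <;> simp [h]

end Pool.Agent.Results.MP_f96441_co.FiniteConfigurations
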